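import Pool.Agent.OM.Final

/-!
MP_d4a114_lc, Q2: for which `n > 1` is the modal logic of `(ω ^ n, ≤)` recursively axiomatizable?
All definitions of the statement are in `Pool.Agent.OM.Logic`.
-/

namespace Pool.Agent.Results.MP_d4a114_lc.Axiomatizability

open Pool.Agent.OM

/-- For every `n > 1`, the logic `L_n` of the `n`-fold direct power of `(ω, ≤)` is recursively
axiomatizable if and only if `n = 2`. -/
theorem result (n : ℕ) (hn : 1 < n) : RecAx n ↔ n = 2 := (all_main n hn).2.1

end Pool.Agent.Results.MP_d4a114_lc.Axiomatizability
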