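import Pool.Agent.OM.Final

/-!
MP_d4a114_lc, Q1: for which `n > 1` is the modal logic of `(ω ^ n, ≤)` decidable?
All definitions of the statement are in `Pool.Agent.OM.Logic`.
-/

namespace Pool.Agent.Results.MP_d4a114_lc.Decidability

open Pool.Agent.OM

/-- For every `n > 1`, the set `L_n` of the modal formulas that are valid in the `n`-fold direct
power of `(ω, ≤)` is decidable if and only if `n = 2`. -/
theorem result (n : ℕ) (hn : 1 < n) : Recursive (Logic n) ↔ n = 2 :=
  (recursive_iff n).trans (all_main n hn).1

end Pool.Agent.Results.MP_d4a114_lc.Decidability
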